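import Pool.Agent.Helper91.PL.Defs2
import Pool.Agent.Helper84.PL.A1
import Pool.Agent.Helper28.PL.A2
import Pool.Agent.Helper83.PL.A3

/-!
# MP_bae8ce_ag, module A4 : the symbol forms, functoriality and specialisation
-/

set_option autoImplicit false
set_option linter.unusedSectionVars false

open Finset

namespace PL

noncomputable section

section A4

universe u

variable {F : Type u} [Field F] {G : Type u} [Field G]

/-- The symbol form of a pair of vectors. -/
private def a4_S {U : Type*} [AddCommGroup U] [Module ℚ U] {q : ℕ}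
    (φ : MultilinearMap ℚ (fun _ : Fin (q + 2) => U) ℚ) (u v : U) : ℚ :=
  φ (Fin.cons u fun _ => v) - φ (Fin.cons v (Fin.cons u fun _ => v))

private theorem a4_S_left {U : Type*} [AddCommGroup U] [Module ℚ U] {q : ℕ}
    (φ : MultilinearMap ℚ (fun _ : Fin (q + 2) => U) ℚ) (v : U) : a4_S φ 0 v = 0 := by
  unfold a4_S
  rw [φ.map_coord_zero (0 : Fin (q + 2)) (by simp),
    φ.map_coord_zero (1 : Fin (q + 2)) (by
      show (Fin.cons v (Fin.cons 0 fun _ => v) : Fin (q + 2) → U) (Fin.succ 0) = 0
      simp), sub_zero]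

private theorem a4_S_right {U : Type*} [AddCommGroup U] [Module ℚ U] {q : ℕ}
    (φ : MultilinearMap ℚ (fun _ : Fin (q + 2) => U) ℚ) (u : U) : a4_S φ u 0 = 0 := by
  unfold a4_S
  rw [φ.map_coord_zero (1 : Fin (q + 2)) (by
      show (Fin.cons u (fun _ => 0) : Fin (q + 2) → U) (Fin.succ 0) = 0
      simp),
    φ.map_coord_zero (0 : Fin (q + 2)) (by simp), sub_zero]

private theorem a4_S_same {U : Type*} [AddCommGroup U] [Module ℚ U] {q : ℕ}
    (φ : MultilinearMap ℚ (fun _ : Fin (q + 2) => U) ℚ) (u : U) : a4_S φ u u = 0 := by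
  unfold a4_S
  have h : (Fin.cons u (Fin.cons u fun _ => u) : Fin (q + 2) → U) = Fin.cons u fun _ => u := by
    funext i
    refine Fin.cases ?_ (fun j => ?_) i
    · simp
    · refine Fin.cases ?_ (fun l => ?_) j <;> simp
  rw [h, sub_self]

private theorem a4_Sy {q : ℕ} (φ : MultilinearMap ℚ (fun _ : Fin (q + 2) => V F) ℚ) (x : P1 F) :
    Sy φ x = a4_S φ (cl1 x) (cl x) := rfl

private theorem a4_Sy_comp {q : ℕ} (φ : MultilinearMap ℚ (fun _ : Fin (q + 2) => V G) ℚ)
    (L : V F →ₗ[ℚ] V G) (x : P1 F) :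
    Sy (φ.compLinearMap fun _ => L) x = a4_S φ (L (cl1 x)) (L (cl x)) := by
  unfold Sy a4_S
  rw [MultilinearMap.compLinearMap_apply, MultilinearMap.compLinearMap_apply]
  congr 1
  · congr 1
    funext i
    refine Fin.cases ?_ (fun j => ?_) i <;> simp
  · congr 1
    funext i
    refine Fin.cases ?_ (fun j => ?_) i
    · simp
    · refine Fin.cases ?_ (fun l => ?_) j <;> simp

private theorem a4_mem {q : ℕ} {α : ZP F} : α ∈ NN q F ↔
    ∀ φ : MultilinearMap ℚ (fun _ : Fin (q + 2) => V F) ℚ,
      Finsupp.linearCombination ℚ (Sy φ) α = 0 := by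
  simp only [NN, Submodule.mem_iInf, LinearMap.mem_ker]

theorem NN_map (q : ℕ) (σ : F →+* G) {α : ZP F} (h : α ∈ NN q F) : mapP σ α ∈ NN q G := by
  obtain ⟨L, hL⟩ := exists_map σ
  rw [a4_mem] at h ⊢
  intro φ
  have h1 := h (φ.compLinearMap fun _ => L)
  have h2 : Finsupp.linearCombination ℚ (Sy φ) (mapP σ α) =
      Finsupp.linearCombination ℚ (Sy φ ∘ Option.map σ) α := by
    unfold mapP
    rw [Finsupp.lmapDomain_apply, Finsupp.linearCombination_mapDomain]
  rw [h2]
  have h3 : Sy φ ∘ Option.map σ = Sy (φ.compLinearMap fun _ => L) := by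
    funext x
    rw [a4_Sy_comp]
    show Sy φ (Option.map σ x) = _
    rw [a4_Sy]
    rcases x with _ | x
    · show a4_S φ (cl1 none) (cl none) = _
      simp [cl, cl1]
    · show a4_S φ (lg (1 - σ x)) (lg (σ x)) = a4_S φ (L (lg (1 - x))) (L (lg x))
      rw [hL, hL, map_sub, map_one]
  rw [h3]
  exact h1

private theorem a4_val_one_sub {a : F} {f : RatFunc F} {c : F} (h : val a (some f) = some c) :
    val a (some (1 - f)) = some (1 - c) := by
  have h1 := val_add (val_C a (1 : F)) (val_mul (val_C a (-1 : F)) h)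
  rw [map_neg, map_one] at h1
  have e1 : (1 : RatFunc F) + -1 * f = 1 - f := by ring
  have e2 : (1 : F) + -1 * c = 1 - c := by ring
  rw [e1, e2] at h1
  exact h1

private theorem a4_spec {q : ℕ} (φ : MultilinearMap ℚ (fun _ : Fin (q + 2) => V F) ℚ) (a : F)
    (L : V (RatFunc F) →ₗ[ℚ] V F) (hL : ∀ (g : RatFunc F) (c : F),
      val a (some g) = some c → c ≠ 0 → L (lg g) = lg c) (x : P1 (RatFunc F)) :
    Sy φ (val a x) = Sy (φ.compLinearMap fun _ => L) x := by
  rw [a4_Sy_comp, a4_Sy]
  rcases x with _ | f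
  · show a4_S φ (cl1 none) (cl none) = a4_S φ (L 0) (L 0)
    simp [cl, cl1]
  · show _ = a4_S φ (L (lg (1 - f))) (L (lg f))
    by_cases hf0 : f = 0
    · subst hf0
      have h1 : val a (some (0 : RatFunc F)) = some 0 := by
        have := val_C a (0 : F)
        rwa [map_zero] at this
      rw [h1]
      show a4_S φ (lg (1 - 0)) (lg 0) = _
      rw [lg_zero, lg_zero, map_zero, a4_S_right, a4_S_right]
    by_cases hf1 : f = 1
    · subst hf1
      have h1 : val a (some (1 : RatFunc F)) = some 1 := by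
        have := val_C a (1 : F)
        rwa [map_one] at this
      rw [h1]
      show a4_S φ (lg (1 - 1)) (lg 1) = _
      rw [sub_self, sub_self, lg_zero, lg_zero, map_zero, a4_S_left, a4_S_left]
    rcases hv : val a (some f) with _ | c
    · show a4_S φ 0 0 = _
      have h0 := val_pole hv
      have h1 := a4_val_one_sub h0
      rw [sub_zero] at h1
      have h2 := hL _ _ h1 one_ne_zero
      rw [lg_one] at h2
      have hne : (1 : RatFunc F) - f⁻¹ ≠ 0 := by
        intro h
        apply hf1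
        have : f⁻¹ = 1 := (sub_eq_zero.mp h).symm
        rw [← inv_inv f, this, inv_one]
      have e : (1 : RatFunc F) - f = -(f * (1 - f⁻¹)) := by
        rw [mul_sub, mul_one, mul_inv_cancel₀ hf0]; ring
      have h3 : L (lg (1 - f)) = L (lg f) := by
        rw [e, lg_neg, lg_mul hf0 hne, map_add, h2, add_zero]
      rw [h3, a4_S_same, a4_S_same]
    · show a4_S φ (lg (1 - c)) (lg c) = _
      have h1 := a4_val_one_sub hv
      by_cases hc0 : c = 0
      · subst hc0
        rw [sub_zero] at h1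
        have h2 := hL _ _ h1 one_ne_zero
        rw [lg_one] at h2
        rw [h2, lg_zero, a4_S_right, a4_S_left]
      by_cases hc1 : c = 1
      · subst hc1
        have h2 := hL _ _ hv one_ne_zero
        rw [lg_one] at h2
        rw [h2, sub_self, lg_zero, a4_S_left, a4_S_right]
      rw [hL _ _ hv hc0, hL _ _ h1 (sub_ne_zero.mpr (Ne.symm hc1))]

theorem NN_spec (q : ℕ) (a : F) {α : ZP (RatFunc F)} (h : α ∈ NN q (RatFunc F)) :
    spec a α ∈ NN q F := by
  obtain ⟨L, hL⟩ := exists_lc a
  rw [a4_mem] at h ⊢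
  intro φ
  have h1 := h (φ.compLinearMap fun _ => L)
  have h2 : Finsupp.linearCombination ℚ (Sy φ) (spec a α) =
      Finsupp.linearCombination ℚ (Sy φ ∘ val a) α := by
    unfold spec
    rw [Finsupp.lmapDomain_apply, Finsupp.linearCombination_mapDomain]
  rw [h2]
  have h3 : Sy φ ∘ val a = Sy (φ.compLinearMap fun _ => L) := by
    funext x
    exact a4_spec φ a L hL x
  rw [h3]
  exact h1

end A4

end

end PL
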